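import Mathlib

/-! # The Kempner number is badly approximable but `{n² κ}` is not Poissonian

Let `κ = ∑_{j ≥ 0} 2 ^ (-2 ^ j)` be the Kempner (or Fredholm) number. It is badly approximable by
rationals, that is, of the smallest possible type `2`. Nevertheless, for every `k ≥ 5` some
`k`-level correlation of `{n² κ}`, `n ≤ N`, is unbounded as `N → ∞`. -/

set_option autoImplicit false

namespace Pool.Agent.Results.MP_0a44cb_nt.KempnerNumber

open Filter Topology

/-- `x_n = {n² α}`, the fractional part of `n² α`. -/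
noncomputable def x (α : ℝ) (n : ℕ) : ℝ := Int.fract ((n : ℝ) ^ 2 * α)

/-- The `k`-level correlation `R_k(f, N)` of `{n² α}`, `n ≤ N`, for `k = d + 1` and
`f : ℝ^d → ℝ`: `(1/N)` times the sum over pairwise distinct `n_0, …, n_d ∈ {1, …, N}` and over
`m ∈ ℤ^d` of `f (N (x_{n_0} - x_{n_1} + m_0), …, N (x_{n_{d-1}} - x_{n_d} + m_{d-1}))`. -/
noncomputable def corr (d N : ℕ) (α : ℝ) (f : (Fin d → ℝ) → ℝ) : ℝ :=
  (1 / (N : ℝ)) *
    ∑ n ∈ (Fintype.piFinset fun _ : Fin (d + 1) => Finset.Icc 1 N).filter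
        (fun n => Function.Injective n),
      ∑' m : Fin d → ℤ,
        f fun i => (N : ℝ) * (x α (n i.castSucc) - x α (n i.succ) + (m i : ℝ))

/-- `{n² α}` is Poissonian along the full sequence: for every `k = d + 1 ≥ 2` and every continuous
compactly supported `f : ℝ^d → ℝ`, `R_k(f, N)` tends to the integral of `f` as `N → ∞`. -/
def Poissonian (α : ℝ) : Prop :=
  ∀ d : ℕ, 1 ≤ d → ∀ f : (Fin d → ℝ) → ℝ, Continuous f → HasCompactSupport f →
    Tendsto (fun N : ℕ => corr d N α f) atTop (𝓝 (∫ y, f y))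

/-- `α` is of type `κ`: there is `C > 0` with `|α - a / q| ≥ C q ^ (-κ)` for all integers `a` and
`q ≥ 1` with `gcd(a, q) = 1`. -/
def IsOfType (κ α : ℝ) : Prop :=
  ∃ C : ℝ, 0 < C ∧ ∀ a q : ℤ, 1 ≤ q → IsCoprime a q →
    C * (q : ℝ) ^ (-κ) ≤ |α - (a : ℝ) / (q : ℝ)|

/-! ### The arithmetic of the approximations -/

/-- `Q_j = 16 ^ (2 ^ (j+1) - 1)` -/
def qq : ℕ → ℤ
  | 0 => 16
  | j + 1 => 16 * qq j ^ 2

/-- the numerators -/
def aa : ℕ → ℤ
  | 0 => 1
  | j + 1 => 16 * aa j * qq j + 1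

lemma qq_ge : ∀ j, 16 ≤ qq j
  | 0 => le_rfl
  | j + 1 => by
    have := qq_ge j
    show 16 ≤ 16 * qq j ^ 2
    nlinarith

lemma coprime_aa : ∀ j, IsCoprime (aa j) (qq j)
  | 0 => isCoprime_one_left
  | j + 1 => by
    refine ⟨1 - 16 * aa j * qq j, 16 * aa j ^ 2, ?_⟩
    show (1 - 16 * aa j * qq j) * (16 * aa j * qq j + 1) + 16 * aa j ^ 2 * (16 * qq j ^ 2) = 1
    ring

/-- the inductive step: `S ≤ L` are the absolute values of the coordinates at level `j + 1` -/
lemma step {Q S L T : ℤ} (hQ : 16 ≤ Q) (hS : 0 < S) (hT : 0 < T) (hSQ : S < Q) (hTQ : T < Q)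
    (h1 : 16 * Q * T - S ≤ L) (h2 : L ≤ 16 * Q * T + S)
    (IH : Q ^ 2 + 4 * (S ^ 2 + T ^ 2) ≤ 32 * Q * (S * T)) :
    (16 * Q ^ 2) ^ 2 + 4 * (S ^ 2 + L ^ 2) ≤ 32 * (16 * Q ^ 2) * (S * L) := by
  set M := 16 * Q * T - S with hM
  have hM0 : 0 ≤ M := by nlinarith
  have hM2 : M ≤ 16 * Q ^ 2 := by nlinarith
  have hL2 : L ≤ 17 * Q ^ 2 := by nlinarith
  -- monotonicity in `L`
  have hmono : 512 * Q ^ 2 * S * M - 4 * M ^ 2 ≤ 512 * Q ^ 2 * S * L - 4 * L ^ 2 := by
    have h3 : 0 ≤ (L - M) * (512 * Q ^ 2 * S - 4 * (L + M)) := by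
      apply mul_nonneg (by linarith)
      have : Q ^ 2 * 1 ≤ Q ^ 2 * S := mul_le_mul_of_nonneg_left (by omega) (by positivity)
      nlinarith
    nlinarith
  have h4 : 256 * Q ^ 2 * (Q ^ 2 + 4 * (S ^ 2 + T ^ 2)) ≤ 256 * Q ^ 2 * (32 * Q * (S * T)) :=
    mul_le_mul_of_nonneg_left IH (by positivity)
  have h5 : 512 * Q ^ 2 * S * M - 4 * M ^ 2 =
      256 * Q ^ 2 * (32 * Q * (S * T)) - 512 * Q ^ 2 * S ^ 2 - 1024 * Q ^ 2 * T ^ 2
        + 128 * Q * S * T - 4 * S ^ 2 := by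
    rw [hM]; ring
  have h6 : 0 ≤ Q * S * T := by positivity
  have h7 : 256 * S ^ 2 ≤ Q ^ 2 * S ^ 2 := by
    apply mul_le_mul_of_nonneg_right _ (by positivity)
    nlinarith
  nlinarith

/-- The key approximation property of `a_j / Q_j`. -/
lemma key : ∀ j : ℕ, ∀ q p : ℤ, q ≠ 0 → q * aa j - p * qq j ≠ 0 → |q| ≤ qq j →
    |q * aa j - p * qq j| ≤ qq j →
    qq j ^ 2 + 4 * (|q| ^ 2 + |q * aa j - p * qq j| ^ 2) ≤
      32 * qq j * (|q| * |q * aa j - p * qq j|)
  | 0 => by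
    intro q p hq ht hq2 ht2
    have h1 : (1 : ℤ) ≤ |q| := Int.one_le_abs hq
    have h2 : (1 : ℤ) ≤ |q * aa 0 - p * qq 0| := Int.one_le_abs ht
    have h3 : qq 0 = 16 := rfl
    rw [h3] at hq2 ht2 h2 ⊢
    set a := |q| with ha
    set b := |q * aa 0 - p * 16| with hb
    have h4 : 0 ≤ (a - 1) * (b - 1) := mul_nonneg (by linarith) (by linarith)
    have h5 : 0 ≤ a * (16 - a) := mul_nonneg (by linarith) (by linarith)
    have h6 : 0 ≤ b * (16 - b) := mul_nonneg (by linarith) (by linarith)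
    nlinarith
  | j + 1 => by
    intro q p hq hr hq2 hr2
    have hQ := qq_ge j
    have hqs : qq (j + 1) = 16 * qq j ^ 2 := rfl
    have has : aa (j + 1) = 16 * aa j * qq j + 1 := rfl
    have IH := key j
    have hcop := coprime_aa j
    rw [hqs, has] at hr hr2 ⊢
    rw [hqs] at hq2
    set Q := qq j with hQdef
    set A := aa j with hAdef
    set t := q * A - p * Q with ht
    have hr' : q * (16 * A * Q + 1) - p * (16 * Q ^ 2) = q + 16 * Q * t := by rw [ht]; ring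
    rw [hr'] at hr hr2 ⊢
    set r := q + 16 * Q * t with hrdef
    have hqa : (1 : ℤ) ≤ |q| := Int.one_le_abs hq
    have hra : (1 : ℤ) ≤ |r| := Int.one_le_abs hr
    have hQ0 : (0 : ℤ) < Q := by linarith
    by_cases ht0 : t = 0
    · have hrq : r = q := by rw [hrdef, ht0]; ring
      rw [hrq]
      have hdvd : Q ∣ q := by
        have : Q ∣ q * A := ⟨p, by rw [ht] at ht0; linarith⟩
        exact hcop.symm.dvd_of_dvd_mul_right this
      have h1 : Q ≤ |q| := Int.le_of_dvd (abs_pos.mpr hq) ((dvd_abs _ _).mpr hdvd)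
      have h2 : Q ^ 2 ≤ |q| ^ 2 := pow_le_pow_left₀ hQ0.le h1 2
      have h3 : Q ^ 2 * Q ^ 2 ≤ Q ^ 2 * |q| ^ 2 := mul_le_mul_of_nonneg_left h2 (by positivity)
      have h4 : 1 * |q| ^ 2 ≤ Q ^ 2 * |q| ^ 2 :=
        mul_le_mul_of_nonneg_right (by nlinarith) (by positivity)
      nlinarith
    · have ht1 : (1 : ℤ) ≤ |t| := Int.one_le_abs ht0
      have hdiff : |r - q| = 16 * Q * |t| := by
        have : r - q = 16 * Q * t := by rw [hrdef]; ring
        rw [this, abs_mul, abs_of_pos (by positivity)]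
      have htri : 16 * Q * |t| ≤ |r| + |q| := by
        rw [← hdiff]; exact abs_sub r q
      have htri2 : |r| ≤ 16 * Q * |t| + |q| := by
        rw [← hdiff]
        have := abs_sub_abs_le_abs_sub r q
        linarith
      have htri3 : |q| ≤ 16 * Q * |t| + |r| := by
        rw [← hdiff]
        have := abs_sub_abs_le_abs_sub q r
        rw [abs_sub_comm] at this
        linarith
      -- the two easy cases
      have heasy : 8 * Q ^ 2 ≤ |q| * |r| →
          (16 * Q ^ 2) ^ 2 + 4 * (|q| ^ 2 + |r| ^ 2) ≤ 32 * (16 * Q ^ 2) * (|q| * |r|) := by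
        intro h
        have h1 : |q| ^ 2 ≤ (16 * Q ^ 2) ^ 2 := pow_le_pow_left₀ (by positivity) hq2 2
        have h2 : |r| ^ 2 ≤ (16 * Q ^ 2) ^ 2 := pow_le_pow_left₀ (by positivity) hr2 2
        have h3 : 32 * (16 * Q ^ 2) * (8 * Q ^ 2) ≤ 32 * (16 * Q ^ 2) * (|q| * |r|) :=
          mul_le_mul_of_nonneg_left h (by positivity)
        nlinarith
      by_cases hB : Q ≤ |t|
      · apply heasy
        have h1 : 16 * Q * Q ≤ 16 * Q * |t| := mul_le_mul_of_nonneg_left hB (by positivity)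
        have h2 : 16 * Q ^ 2 ≤ |r| + |q| := by nlinarith
        rcases le_total (|q|) (|r|) with h | h
        · nlinarith
        · nlinarith
      · push Not at hB
        have h16 : 16 * Q ≤ |r| + |q| := by nlinarith
        rcases le_total (|q|) (|r|) with h | h
        · by_cases hs : |q| < Q
          · have h1 := IH q p hq ht0 hs.le hB.le
            have h2 := step hQ (by linarith) (by linarith) hs hB
              (by linarith : 16 * Q * |t| - |q| ≤ |r|) (by linarith) h1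
            exact h2
          · push Not at hs
            apply heasy
            have : 8 * Q ≤ |r| := by linarith
            nlinarith
        · by_cases hs : |r| < Q
          · have h3 : r * A - (p + 16 * t * A) * Q = t := by rw [hrdef]; linear_combination ht
            have h1 := IH r (p + 16 * t * A) hr (by rw [h3]; exact ht0) hs.le
              (by rw [h3]; exact hB.le)
            rw [h3] at h1
            have h2 := step hQ (by linarith) (by linarith) hs hB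
              (by linarith : 16 * Q * |t| - |r| ≤ |q|) (by linarith) h1
            rw [mul_comm (|q|) (|r|)]
            linarith
          · push Not at hs
            apply heasy
            have : 8 * Q ≤ |q| := by linarith
            nlinarith

/-! ### The Kempner number -/

/-- the Kempner number `κ = ∑_{j ≥ 0} 2 ^ (-2 ^ j)` -/
noncomputable def kempner : ℝ := ∑' j : ℕ, (1 / 2 : ℝ) ^ 2 ^ j

lemma two_pow_add_ge (n i : ℕ) : 2 ^ n + i ≤ 2 ^ (i + n) := by
  induction i with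
  | zero => simp
  | succ i ih =>
    have h1 : 2 ^ (i + 1 + n) = 2 * 2 ^ (i + n) := by ring
    have h2 : 1 ≤ 2 ^ (i + n) := Nat.one_le_two_pow
    omega

lemma summable_kempner : Summable fun j : ℕ => (1 / 2 : ℝ) ^ 2 ^ j := by
  refine Summable.of_nonneg_of_le (fun j => by positivity) (fun j => ?_)
    (summable_geometric_of_lt_one (by norm_num) (by norm_num : (1 / 2 : ℝ) < 1))
  have h := two_pow_add_ge 0 j
  exact pow_le_pow_of_le_one (by norm_num) (by norm_num) (by simp at h; omega)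

lemma tail (n : ℕ) : 0 < kempner - ∑ i ∈ Finset.range n, (1 / 2 : ℝ) ^ 2 ^ i ∧
    kempner - ∑ i ∈ Finset.range n, (1 / 2 : ℝ) ^ 2 ^ i ≤ 2 * (1 / 2 : ℝ) ^ 2 ^ n := by
  have h1 := summable_kempner.sum_add_tsum_nat_add n
  have h0 : kempner = ∑' j : ℕ, (1 / 2 : ℝ) ^ 2 ^ j := rfl
  rw [h0, ← h1, add_sub_cancel_left]
  have hs' : Summable fun i : ℕ => (1 / 2 : ℝ) ^ 2 ^ (i + n) :=
    (summable_nat_add_iff (f := fun j : ℕ => (1 / 2 : ℝ) ^ 2 ^ j) n).mpr summable_kempner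
  constructor
  · exact hs'.tsum_pos (fun i => by positivity) 0 (by positivity)
  · have hg : Summable fun i : ℕ => (1 / 2 : ℝ) ^ 2 ^ n * (1 / 2 : ℝ) ^ i :=
      (summable_geometric_of_lt_one (by norm_num) (by norm_num)).mul_left _
    have hle : ∀ i : ℕ, (1 / 2 : ℝ) ^ 2 ^ (i + n) ≤ (1 / 2 : ℝ) ^ 2 ^ n * (1 / 2 : ℝ) ^ i := by
      intro i
      rw [← pow_add]
      exact pow_le_pow_of_le_one (by norm_num) (by norm_num) (two_pow_add_ge n i)
    have h4 := hs'.tsum_le_tsum hle hg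
    have h5 : ∑' i : ℕ, (1 / 2 : ℝ) ^ 2 ^ n * (1 / 2 : ℝ) ^ i = 2 * (1 / 2 : ℝ) ^ 2 ^ n := by
      rw [tsum_mul_left, tsum_geometric_of_lt_one (by norm_num) (by norm_num)]
      ring
    rw [h5] at h4
    exact h4

lemma qq_eq (j : ℕ) : (16 * qq j : ℤ) = 2 ^ 2 ^ (j + 3) := by
  induction j with
  | zero => rfl
  | succ j ih =>
    have h1 : qq (j + 1) = 16 * qq j ^ 2 := rfl
    have h2 : (2 : ℤ) ^ 2 ^ (j + 1 + 3) = (2 ^ 2 ^ (j + 3)) ^ 2 := by
      rw [← pow_mul]; congr 1; 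
    rw [h1, h2, ← ih]; ring

lemma half_pow (j : ℕ) : (1 / 2 : ℝ) ^ 2 ^ (j + 3) = 1 / (16 * (qq j : ℝ)) := by
  have h : (16 * (qq j : ℝ)) = 2 ^ 2 ^ (j + 3) := by exact_mod_cast qq_eq j
  rw [h, one_div_pow]

lemma partial_sum (j : ℕ) : ∑ i ∈ Finset.range (j + 4), (1 / 2 : ℝ) ^ 2 ^ i =
    (13 + (aa j : ℝ) / (qq j : ℝ)) / 16 := by
  induction j with
  | zero =>
    simp only [Finset.sum_range_succ, Finset.sum_range_zero, aa, qq]
    norm_num
  | succ j ih =>
    rw [Finset.sum_range_succ, ih, show j + 4 = (j + 1) + 3 from rfl, half_pow]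
    have h1 : (qq (j + 1) : ℝ) = 16 * (qq j : ℝ) ^ 2 := by
      have : qq (j + 1) = 16 * qq j ^ 2 := rfl
      rw [this]; push_cast; ring
    have h2 : (aa (j + 1) : ℝ) = 16 * (aa j : ℝ) * (qq j : ℝ) + 1 := by
      have : aa (j + 1) = 16 * aa j * qq j + 1 := rfl
      rw [this]; push_cast; ring
    have h3 : (qq j : ℝ) ≠ 0 := by
      have := qq_ge j
      exact_mod_cast (by linarith : (0 : ℤ) < qq j).ne'
    rw [h1, h2]
    field_simp
    ring

/-- `β = 16 κ - 13` is close to `a_j / Q_j` -/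
lemma beta_bounds (j : ℕ) : 0 < (16 * kempner - 13) - (aa j : ℝ) / (qq j : ℝ) ∧
    (16 * kempner - 13) - (aa j : ℝ) / (qq j : ℝ) ≤ 1 / (8 * (qq j : ℝ) ^ 2) := by
  obtain ⟨h1, h2⟩ := tail (j + 4)
  rw [partial_sum] at h1 h2
  rw [show j + 4 = (j + 1) + 3 from rfl, half_pow] at h2
  have h3 : (qq (j + 1) : ℝ) = 16 * (qq j : ℝ) ^ 2 := by
    have : qq (j + 1) = 16 * qq j ^ 2 := rfl
    rw [this]; push_cast; ring
  rw [h3] at h2
  have hQ : (0 : ℝ) < qq j := by
    have := qq_ge j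
    exact_mod_cast (by linarith : (0 : ℤ) < qq j)
  constructor
  · linarith
  · have h4 : 1 / (8 * (qq j : ℝ) ^ 2) = 16 * (2 * (1 / (16 * (16 * (qq j : ℝ) ^ 2)))) := by
      field_simp; norm_num
    rw [h4]
    linarith

lemma lt_qq (q : ℤ) : ∃ j, q < qq j := by
  refine ⟨q.toNat, ?_⟩
  have h : ∀ n : ℕ, (n : ℤ) < qq n := by
    intro n
    induction n with
    | zero => decide
    | succ n ih =>
      have h1 : qq (n + 1) = 16 * qq n ^ 2 := rfl
      have := qq_ge n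
      rw [h1]; push_cast; nlinarith
  exact lt_of_le_of_lt (Int.self_le_toNat q) (h _)

/-- `|q β - p| ≥ 1 / (32 q)` for all integers `q ≥ 1` and `p` -/
lemma beta_lower (q p : ℤ) (hq : 0 < q) :
    1 / (32 * (q : ℝ)) ≤ |(q : ℝ) * (16 * kempner - 13) - p| := by
  obtain ⟨j, hj⟩ := lt_qq q
  obtain ⟨hb1, hb2⟩ := beta_bounds j
  have hQ16 := qq_ge j
  have hQ : (0 : ℝ) < qq j := by exact_mod_cast (by linarith : (0 : ℤ) < qq j)
  have hQ16R : (16 : ℝ) ≤ qq j := by exact_mod_cast hQ16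
  have hqR : (0 : ℝ) < q := by exact_mod_cast hq
  have hq1 : (1 : ℝ) ≤ q := by exact_mod_cast hq
  have hltR : (q : ℝ) < qq j := by exact_mod_cast hj
  set β : ℝ := 16 * kempner - 13 with hβ
  set t : ℤ := q * aa j - p * qq j with ht
  have ht0 : t ≠ 0 := by
    intro h
    have hdvd : qq j ∣ q := by
      have : qq j ∣ q * aa j := ⟨p, by rw [ht] at h; linarith⟩
      exact (coprime_aa j).symm.dvd_of_dvd_mul_right this
    have := Int.le_of_dvd hq hdvd
    omega
  have h1 : |(q : ℝ) * (aa j / qq j) - p| = |(t : ℝ)| / qq j := by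
    have : (q : ℝ) * (aa j / qq j) - p = (t : ℝ) / qq j := by
      rw [ht]; push_cast; field_simp
    rw [this, abs_div, abs_of_pos hQ]
  have h2 : |(t : ℝ)| / qq j - q * (1 / (8 * (qq j : ℝ) ^ 2)) ≤ |(q : ℝ) * β - p| := by
    have h3 := abs_sub_abs_le_abs_sub ((q : ℝ) * (aa j / qq j) - p) ((q : ℝ) * β - p)
    have h4 : ((q : ℝ) * (aa j / qq j) - p) - ((q : ℝ) * β - p) = -(q * (β - aa j / qq j)) := by
      ring
    rw [h4, abs_neg, abs_of_pos (mul_pos hqR hb1), h1] at h3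
    have h5 : q * (β - aa j / qq j) ≤ q * (1 / (8 * (qq j : ℝ) ^ 2)) :=
      mul_le_mul_of_nonneg_left hb2 hqR.le
    linarith
  refine le_trans ?_ h2
  by_cases htQ : |t| ≤ qq j
  · have hkey := key j q p hq.ne' ht0 (by rw [abs_of_pos hq]; exact hj.le) htQ
    rw [abs_of_pos hq, ← ht] at hkey
    have hkeyR : (qq j : ℝ) ^ 2 + 4 * ((q : ℝ) ^ 2 + |(t : ℝ)| ^ 2) ≤
        32 * qq j * (q * |(t : ℝ)|) := by exact_mod_cast hkey
    rw [le_sub_iff_add_le, div_add' _ _ _ (by positivity), div_le_div_iff₀ (by positivity) hQ]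
    have h6 : (0 : ℝ) ≤ |(t : ℝ)| ^ 2 := by positivity
    have h7 : (1 + (q : ℝ) * (1 / (8 * (qq j : ℝ) ^ 2)) * (32 * q)) * qq j * qq j =
        (qq j : ℝ) ^ 2 + 4 * (q : ℝ) ^ 2 := by
      field_simp; ring
    have h8 : (1 + (q : ℝ) * (1 / (8 * (qq j : ℝ) ^ 2)) * (32 * q)) * qq j * qq j ≤
        |(t : ℝ)| * (32 * q) * qq j := by
      rw [h7]; linarith
    exact le_of_mul_le_mul_right h8 hQ
  · push Not at htQ
    have h3 : (1 : ℝ) ≤ |(t : ℝ)| / qq j := by
      rw [le_div_iff₀ hQ]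
      have : ((qq j : ℤ) : ℝ) < ((|t| : ℤ) : ℝ) := by exact_mod_cast htQ
      push_cast at this
      linarith
    have h4 : (q : ℝ) * (1 / (8 * (qq j : ℝ) ^ 2)) ≤ 1 / 8 := by
      rw [mul_one_div, div_le_div_iff₀ (by positivity) (by norm_num)]
      nlinarith
    have h5 : 1 / (32 * (q : ℝ)) ≤ 1 / 32 := by
      apply one_div_le_one_div_of_le (by norm_num)
      linarith
    linarith

/-- the Kempner number is badly approximable -/
lemma kempner_lower (a q : ℤ) (hq : 1 ≤ q) :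
    1 / 512 * (q : ℝ) ^ (-(2 : ℝ)) ≤ |kempner - (a : ℝ) / (q : ℝ)| := by
  have hqR : (0 : ℝ) < q := by exact_mod_cast (by omega : (0 : ℤ) < q)
  have h := beta_lower q (16 * a - 13 * q) (by omega)
  have h1 : (q : ℝ) * (16 * kempner - 13) - ((16 * a - 13 * q : ℤ) : ℝ) =
      16 * q * (kempner - a / q) := by
    push_cast; field_simp; ring
  rw [h1, abs_mul, abs_of_pos (by positivity : (0 : ℝ) < 16 * q)] at h
  have h2 : (q : ℝ) ^ (-(2 : ℝ)) = 1 / (q : ℝ) ^ 2 := by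
    rw [Real.rpow_neg hqR.le, Real.rpow_two, one_div]
  rw [h2]
  rw [div_le_iff₀ (by positivity)] at h
  rw [div_mul_div_comm, one_mul, div_le_iff₀ (by positivity)]
  linarith

lemma kempner_type : IsOfType 2 kempner :=
  ⟨1 / 512, by norm_num, fun a q hq _ => kempner_lower a q hq⟩

lemma kempner_irrational : Irrational kempner := by
  rintro ⟨r, hr⟩
  have hd : (1 : ℤ) ≤ (r.den : ℤ) := by exact_mod_cast r.pos
  have h := kempner_lower r.num r.den hd
  rw [← hr] at h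
  have h2 : (r : ℝ) - (r.num : ℝ) / ((r.den : ℤ) : ℝ) = 0 := by
    have : (r : ℝ) = (r.num : ℝ) / (r.den : ℝ) := by exact_mod_cast (Rat.num_div_den r).symm
    rw [this]; push_cast; ring
  rw [h2, abs_zero] at h
  have hdR : (0 : ℝ) < ((r.den : ℤ) : ℝ) := by exact_mod_cast (by omega : (0 : ℤ) < (r.den : ℤ))
  have : 0 < 1 / 512 * ((r.den : ℤ) : ℝ) ^ (-(2 : ℝ)) := by positivity
  linarith

/-! ### The test function and the lower bound for the correlation -/

/-- the test function `max (0, 2 - ‖y‖_∞)` -/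
noncomputable def bump (d : ℕ) (y : Fin d → ℝ) : ℝ := max 0 (2 - ‖y‖)

lemma bump_continuous (d : ℕ) : Continuous (bump d) := by
  unfold bump; fun_prop

lemma bump_nonneg (d : ℕ) (y : Fin d → ℝ) : 0 ≤ bump d y := le_max_left _ _

lemma bump_compact (d : ℕ) : HasCompactSupport (bump d) := by
  refine HasCompactSupport.of_support_subset_isCompact (isCompact_closedBall 0 2) ?_
  intro y hy
  rw [Function.mem_support] at hy
  rw [mem_closedBall_zero_iff]
  by_contra h
  push Not at h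
  exact hy (max_eq_left (by linarith))

lemma bump_ge_one (d : ℕ) (y : Fin d → ℝ) (h : ∀ i, |y i| ≤ 1) : 1 ≤ bump d y := by
  have : ‖y‖ ≤ 1 := (pi_norm_le_iff_of_nonneg zero_le_one).mpr (fun i => by simpa using h i)
  exact le_trans (by linarith) (le_max_right _ _)

lemma x_mem (α : ℝ) (n : ℕ) : 0 ≤ x α n ∧ x α n < 1 := ⟨Int.fract_nonneg _, Int.fract_lt_one _⟩

lemma summable_inner (d N : ℕ) (hN : 1 ≤ N) (α : ℝ) (n : Fin (d + 1) → ℕ) :
    Summable fun m : Fin d → ℤ =>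
      bump d fun i => (N : ℝ) * (x α (n i.castSucc) - x α (n i.succ) + (m i : ℝ)) := by
  apply summable_of_hasFiniteSupport
  refine (Set.finite_Icc (fun _ : Fin d => (-3 : ℤ)) (fun _ => 3)).subset ?_
  intro m hm
  rw [Function.mem_support] at hm
  have h1 : ‖fun i : Fin d => (N : ℝ) * (x α (n i.castSucc) - x α (n i.succ) + (m i : ℝ))‖ < 2 := by
    by_contra h
    push Not at h
    exact hm (max_eq_left (by linarith))
  have hNR : (1 : ℝ) ≤ N := by exact_mod_cast hN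
  have h2 : ∀ i, |(m i : ℝ)| < 3 := by
    intro i
    have h3 := (norm_le_pi_norm (fun i : Fin d =>
      (N : ℝ) * (x α (n i.castSucc) - x α (n i.succ) + (m i : ℝ))) i).trans_lt h1
    simp only [Real.norm_eq_abs, abs_mul, Nat.abs_cast] at h3
    have h4 : |x α (n i.castSucc) - x α (n i.succ) + (m i : ℝ)| < 2 := by
      have := abs_nonneg (x α (n i.castSucc) - x α (n i.succ) + (m i : ℝ))
      nlinarith
    have h5 := x_mem α (n i.castSucc)
    have h6 := x_mem α (n i.succ)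
    rw [abs_lt] at h4 ⊢
    constructor <;> linarith [h4.1, h4.2, h5.1, h5.2, h6.1, h6.2]
  constructor
  · intro i
    have := h2 i
    rw [abs_lt] at this
    have h := this.1
    have : (-3 : ℤ) < m i := by exact_mod_cast h
    exact this.le
  · intro i
    have := h2 i
    rw [abs_lt] at this
    have h := this.2
    have : m i < (3 : ℤ) := by exact_mod_cast h
    exact this.le

lemma corr_lower (d N : ℕ) (hN : 1 ≤ N) (α : ℝ) (T : Finset (Fin (d + 1) → ℕ))
    (hT : T ⊆ (Fintype.piFinset fun _ : Fin (d + 1) => Finset.Icc 1 N).filter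
        (fun n => Function.Injective n))
    (hcl : ∀ n ∈ T, ∀ i j, |x α (n i) - x α (n j)| ≤ 1 / N) :
    (T.card : ℝ) / N ≤ corr d N α (bump d) := by
  unfold corr
  have hNR : (0 : ℝ) < N := by exact_mod_cast hN
  rw [div_eq_mul_one_div, mul_comm]
  refine mul_le_mul_of_nonneg_left ?_ (by positivity)
  refine le_trans ?_ (Finset.sum_le_sum_of_subset_of_nonneg hT
    (fun n _ _ => tsum_nonneg (fun m => bump_nonneg d _)))
  rw [Finset.card_eq_sum_ones]
  push_cast
  refine Finset.sum_le_sum (fun n hn => ?_)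
  have h1 := (summable_inner d N hN α n).le_tsum (0 : Fin d → ℤ) (fun m _ => bump_nonneg d _)
  refine le_trans ?_ h1
  apply bump_ge_one
  intro i
  simp only [Pi.zero_apply, Int.cast_zero, add_zero, abs_mul, Nat.abs_cast]
  have h2 := hcl n hn i.castSucc i.succ
  have h3 := mul_le_mul_of_nonneg_left h2 hNR.le
  rw [mul_one_div_cancel hNR.ne'] at h3
  exact h3

/-- the partial sums of the series are integers over `2 ^ 2 ^ m` -/
lemma partial_int (m : ℕ) : ∃ A : ℤ, ∑ i ∈ Finset.range (m + 1), (1 / 2 : ℝ) ^ 2 ^ i =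
    (A : ℝ) / 2 ^ 2 ^ m := by
  induction m with
  | zero => exact ⟨1, by simp⟩
  | succ m ih =>
    obtain ⟨A, hA⟩ := ih
    refine ⟨A * 2 ^ 2 ^ m + 1, ?_⟩
    rw [Finset.sum_range_succ, hA]
    have h : (2 : ℝ) ^ 2 ^ (m + 1) = (2 ^ 2 ^ m) * (2 ^ 2 ^ m) := by
      rw [← pow_add]; congr 1; ring
    rw [one_div_pow, h]
    have h0 : (2 : ℝ) ^ 2 ^ m ≠ 0 := by positivity
    push_cast
    field_simp

/-- the cluster near `0` -/
lemma x_cluster (m u N : ℕ) (hN : 2 ≤ N) (hu : 2 * u ^ 2 * N ≤ 2 ^ 2 ^ (m + 1)) :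
    0 ≤ x kempner (2 ^ 2 ^ m * u) ∧ x kempner (2 ^ 2 ^ m * u) ≤ 1 / N := by
  refine ⟨(x_mem _ _).1, ?_⟩
  obtain ⟨A, hA⟩ := partial_int (m + 1)
  obtain ⟨hb1, hb2⟩ := tail (m + 1 + 1)
  rw [hA] at hb1 hb2
  set W : ℝ := 2 ^ 2 ^ (m + 1) with hW
  have hW0 : 0 < W := by positivity
  have h2 : (1 / 2 : ℝ) ^ 2 ^ (m + 1 + 1) = 1 / (W * W) := by
    rw [one_div_pow, hW, ← pow_add]
    congr 2; ring
  rw [h2] at hb2
  have hv : ((2 ^ 2 ^ m : ℕ) : ℝ) ^ 2 = W := by
    rw [hW]; push_cast; rw [← pow_mul]; congr 1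
  have huR : 2 * (u : ℝ) ^ 2 * N ≤ W := by rw [hW]; exact_mod_cast hu
  have hNR : (2 : ℝ) ≤ N := by exact_mod_cast hN
  set θ : ℝ := W * (kempner - A / W) with hθ
  have hθ0 : 0 < θ := mul_pos hW0 hb1
  have hθ1 : θ ≤ 2 / W := by
    have := mul_le_mul_of_nonneg_left hb2 hW0.le
    refine this.trans (le_of_eq ?_)
    field_simp
  have h1 : (((2 ^ 2 ^ m * u : ℕ) : ℝ)) ^ 2 * kempner =
      (u : ℝ) ^ 2 * θ + ((u ^ 2 * A : ℤ) : ℝ) := by
    rw [Nat.cast_mul, mul_pow, hv, hθ]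
    push_cast
    field_simp
    ring
  have h3 : (u : ℝ) ^ 2 * θ ≤ 1 / N := by
    have h4 : (u : ℝ) ^ 2 * θ ≤ u ^ 2 * (2 / W) :=
      mul_le_mul_of_nonneg_left hθ1 (by positivity)
    refine h4.trans ?_
    rw [mul_div_assoc', div_le_div_iff₀ hW0 (by linarith)]
    linarith
  have h4 : (u : ℝ) ^ 2 * θ < 1 := by
    have : (1 : ℝ) / N < 1 := by
      rw [div_lt_one (by linarith)]; linarith
    linarith
  unfold x
  rw [h1, Int.fract_add_intCast, Int.fract_eq_self.mpr ⟨by positivity, h4⟩]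
  exact h3

/-- lower bound for the correlation at `N` -/
lemma corr_lower' (d m L N : ℕ) (hN : 2 ≤ N)
    (h1 : 2 ^ 2 ^ m * ((d + 1) * L) ≤ N)
    (h2 : 2 * ((d + 1) * L) ^ 2 * N ≤ 2 ^ 2 ^ (m + 1)) :
    ((L : ℝ) ^ (d + 1)) / N ≤ corr d N kempner (bump d) := by
  classical
  set v := 2 ^ 2 ^ m with hv
  have hv0 : 0 < v := by positivity
  let T : Finset (Fin (d + 1) → ℕ) := Fintype.piFinset fun i : Fin (d + 1) =>
    (Finset.Icc 1 L).image (fun w => v * ((i : ℕ) * L + w))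
  have hcard : T.card = L ^ (d + 1) := by
    rw [Fintype.card_piFinset]
    have : ∀ i : Fin (d + 1),
        ((Finset.Icc 1 L).image (fun w => v * ((i : ℕ) * L + w))).card = L := by
      intro i
      rw [Finset.card_image_of_injective, Nat.card_Icc]
      · omega
      · intro a b hab
        have := Nat.eq_of_mul_eq_mul_left hv0 hab
        omega
    rw [Finset.prod_congr rfl (fun i _ => this i)]
    simp
  have hmem : ∀ n ∈ T, ∀ i : Fin (d + 1), ∃ w : ℕ, 1 ≤ w ∧ w ≤ L ∧ n i = v * ((i : ℕ) * L + w) := by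
    intro n hn i
    have := Fintype.mem_piFinset.mp hn i
    rw [Finset.mem_image] at this
    obtain ⟨w, hw, hw2⟩ := this
    rw [Finset.mem_Icc] at hw
    exact ⟨w, hw.1, hw.2, hw2.symm⟩
  have hbd : ∀ (i : Fin (d + 1)) (w : ℕ), w ≤ L → (i : ℕ) * L + w ≤ (d + 1) * L := by
    intro i w hw
    have hi : (i : ℕ) + 1 ≤ d + 1 := i.isLt
    calc (i : ℕ) * L + w ≤ (i : ℕ) * L + L := by omega
      _ = ((i : ℕ) + 1) * L := by ring
      _ ≤ (d + 1) * L := Nat.mul_le_mul_right _ hi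
  have hT : T ⊆ (Fintype.piFinset fun _ : Fin (d + 1) => Finset.Icc 1 N).filter
        (fun n => Function.Injective n) := by
    intro n hn
    rw [Finset.mem_filter, Fintype.mem_piFinset]
    constructor
    · intro i
      obtain ⟨w, hw1, hw2, hw3⟩ := hmem n hn i
      rw [Finset.mem_Icc, hw3]
      constructor
      · exact Nat.mul_pos hv0 (by omega)
      · exact (Nat.mul_le_mul_left v (hbd i w hw2)).trans h1
    · intro i i' hii
      obtain ⟨w, hw1, hw2, hw3⟩ := hmem n hn i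
      obtain ⟨w', hw1', hw2', hw3'⟩ := hmem n hn i'
      rw [hw3, hw3'] at hii
      have h4 := Nat.eq_of_mul_eq_mul_left hv0 hii
      by_contra hne
      have hne' : (i : ℕ) ≠ (i' : ℕ) := fun h => hne (Fin.ext h)
      rcases Nat.lt_or_gt_of_ne hne' with hlt | hlt
      · have : ((i : ℕ) + 1) * L ≤ (i' : ℕ) * L := Nat.mul_le_mul_right _ hlt
        rw [Nat.add_mul, one_mul] at this
        omega
      · have : ((i' : ℕ) + 1) * L ≤ (i : ℕ) * L := Nat.mul_le_mul_right _ hlt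
        rw [Nat.add_mul, one_mul] at this
        omega
  have hcl : ∀ n ∈ T, ∀ i i', |x kempner (n i) - x kempner (n i')| ≤ 1 / N := by
    intro n hn i i'
    have key2 : ∀ i : Fin (d + 1), 0 ≤ x kempner (n i) ∧ x kempner (n i) ≤ 1 / N := by
      intro i
      obtain ⟨w, hw1, hw2, hw3⟩ := hmem n hn i
      rw [hw3]
      apply x_cluster m _ N hN
      refine le_trans ?_ h2
      have h5 := Nat.pow_le_pow_left (hbd i w hw2) 2
      exact Nat.mul_le_mul_right _ (Nat.mul_le_mul_left _ h5)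
    have h8 := key2 i
    have h9 := key2 i'
    rw [abs_le]
    constructor <;> linarith [h8.1, h8.2, h9.1, h9.2]
  have h3 := corr_lower d N (by omega) kempner T hT hcl
  rw [hcard] at h3
  push_cast at h3
  exact h3

/-- lower bound for the correlation at `N = 2 ^ (2 ^ m + d + l)` -/
lemma corr_large (d m l : ℕ) (hd : 4 ≤ d) (h1 : 3 * (d + l) + 1 ≤ 2 ^ m)
    (h2 : 2 ^ m ≤ 3 * (d + l) + 3) (hl : 4 * d + 3 ≤ l) :
    (2 : ℝ) ^ (l - (4 * d + 3)) ≤ corr d (2 ^ (2 ^ m + d + l)) kempner (bump d) := by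
  have hd2 : d + 1 ≤ 2 ^ d := Nat.lt_two_pow_self
  have hL : (d + 1) * 2 ^ l ≤ 2 ^ (d + l) := by
    rw [pow_add]; exact Nat.mul_le_mul_right _ hd2
  have h3 : 2 ^ 2 ^ m * ((d + 1) * 2 ^ l) ≤ 2 ^ (2 ^ m + d + l) := by
    rw [add_assoc, pow_add 2 (2 ^ m)]
    exact Nat.mul_le_mul_left _ hL
  have h4 : 2 * ((d + 1) * 2 ^ l) ^ 2 * 2 ^ (2 ^ m + d + l) ≤ 2 ^ 2 ^ (m + 1) := by
    calc 2 * ((d + 1) * 2 ^ l) ^ 2 * 2 ^ (2 ^ m + d + l)
        ≤ 2 * (2 ^ (d + l)) ^ 2 * 2 ^ (2 ^ m + d + l) :=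
          Nat.mul_le_mul_right _ (Nat.mul_le_mul_left _ (Nat.pow_le_pow_left hL 2))
      _ = 2 ^ (2 ^ m + (3 * (d + l) + 1)) := by ring
      _ ≤ 2 ^ 2 ^ (m + 1) := by
          apply Nat.pow_le_pow_right (by norm_num)
          have : 2 ^ (m + 1) = 2 ^ m + 2 ^ m := by ring
          omega
  have hN : 2 ≤ 2 ^ (2 ^ m + d + l) := by
    calc 2 = 2 ^ 1 := rfl
      _ ≤ _ := Nat.pow_le_pow_right (by norm_num) (by omega)
  have h5 := corr_lower' d m (2 ^ l) (2 ^ (2 ^ m + d + l)) hN h3 h4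
  refine le_trans ?_ h5
  rw [le_div_iff₀ (by positivity)]
  push_cast
  rw [← pow_add, ← pow_mul]
  apply pow_le_pow_right₀ (by norm_num)
  have h6 : l * 4 ≤ l * d := Nat.mul_le_mul_left _ hd
  have h7 : l * (d + 1) = l * d + l := by ring
  omega

/-- For every `k = d + 1 ≥ 5` the `k`-level correlation of a fixed continuous compactly supported
function tends to `+∞` along a sequence `N_j → ∞`. -/
lemma corr_tendsto (d : ℕ) (hd : 4 ≤ d) : ∃ N : ℕ → ℕ, Tendsto N atTop atTop ∧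
    Tendsto (fun j => corr d (N j) kempner (bump d)) atTop atTop := by
  let l : ℕ → ℕ := fun m => (2 ^ m - 1) / 3 - d
  have hl : Tendsto l atTop atTop := by
    rw [tendsto_atTop]
    intro b
    filter_upwards [eventually_ge_atTop (3 * (b + d) + 1)] with m hm
    have h1 : m < 2 ^ m := Nat.lt_two_pow_self
    show b ≤ (2 ^ m - 1) / 3 - d
    omega
  refine ⟨fun m => 2 ^ (2 ^ m + d + l m), ?_, ?_⟩
  · have h1 : Tendsto (fun m : ℕ => m) atTop atTop := tendsto_id
    refine tendsto_atTop_mono (fun m => ?_) h1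
    show m ≤ 2 ^ (2 ^ m + d + l m)
    have h2 : m < 2 ^ m := Nat.lt_two_pow_self
    have h3 : 2 ^ m < 2 ^ 2 ^ m := Nat.lt_two_pow_self
    have h4 : 2 ^ 2 ^ m ≤ 2 ^ (2 ^ m + d + l m) := Nat.pow_le_pow_right (by norm_num) (by omega)
    omega
  · have h1 : Tendsto (fun m : ℕ => (2 : ℝ) ^ (l m - (4 * d + 3))) atTop atTop := by
      have h2 : Tendsto (fun m : ℕ => l m - (4 * d + 3)) atTop atTop :=
        (tendsto_sub_atTop_nat _).comp hl
      exact (tendsto_pow_atTop_atTop_of_one_lt (by norm_num : (1 : ℝ) < 2)).comp h2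
    refine tendsto_atTop_mono' atTop ?_ h1
    filter_upwards [hl.eventually_ge_atTop (4 * d + 3), eventually_ge_atTop (3 * d + 2)]
      with m hm hm2
    have h2 : m < 2 ^ m := Nat.lt_two_pow_self
    have h3 : l m = (2 ^ m - 1) / 3 - d := rfl
    exact corr_large d m (l m) hd (by omega) (by omega) hm

/-- **The Kempner number is badly approximable and `{n² κ}` is not Poissonian.** The number
`κ = ∑_{j ≥ 0} 2 ^ (-2 ^ j)` is irrational and of type `2` (the smallest possible type). For every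
`k = d + 1 ≥ 5` there are a continuous compactly supported `f : ℝ ^ d → ℝ` and `N_j → ∞` with
`R_k(f, N_j) → +∞`. In particular `{n² κ}` is not Poissonian as `N → ∞` through all integers. -/
theorem result : Irrational (∑' j : ℕ, (1 / 2 : ℝ) ^ 2 ^ j) ∧
    IsOfType 2 (∑' j : ℕ, (1 / 2 : ℝ) ^ 2 ^ j) ∧
    (∀ d : ℕ, 4 ≤ d → ∃ f : (Fin d → ℝ) → ℝ, Continuous f ∧ HasCompactSupport f ∧
      ∃ N : ℕ → ℕ, Tendsto N atTop atTop ∧
        Tendsto (fun j => corr d (N j) (∑' j : ℕ, (1 / 2 : ℝ) ^ 2 ^ j) f) atTop atTop) ∧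
    ¬ Poissonian (∑' j : ℕ, (1 / 2 : ℝ) ^ 2 ^ j) := by
  have hmain : ∀ d : ℕ, 4 ≤ d → ∃ f : (Fin d → ℝ) → ℝ, Continuous f ∧ HasCompactSupport f ∧
      ∃ N : ℕ → ℕ, Tendsto N atTop atTop ∧
        Tendsto (fun j => corr d (N j) kempner f) atTop atTop := by
    intro d hd
    obtain ⟨N, hN1, hN2⟩ := corr_tendsto d hd
    exact ⟨bump d, bump_continuous d, bump_compact d, N, hN1, hN2⟩
  refine ⟨kempner_irrational, kempner_type, hmain, fun hP => ?_⟩
  obtain ⟨f, hf1, hf2, N, hN1, hN2⟩ := hmain 4 le_rfl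
  have h1 := (hP 4 (by norm_num) f hf1 hf2).comp hN1
  exact not_tendsto_nhds_of_tendsto_atTop hN2 _ h1

end Pool.Agent.Results.MP_0a44cb_nt.KempnerNumber
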